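import Pool.Agent.Helper80.CRL.Final
import Pool.Agent.Helper92.CRLA

set_option autoImplicit false

open Pool.Agent.Helper80.CRL

namespace Pool.Agent.Results.MP_d63846_lc.NotPac

/-- **`CRL ⊄ L(P_ac)`.** There is a Church-Rosser language `L` over a finite alphabet `T`, which
does not contain the empty word, such that no programmed grammar with appearance checking and
without erasing rules generates `L` (equivalently `L ∖ {λ}`); the terminal alphabet of the grammar
may be `T` or any finite alphabet `T'` into which `T` is embedded by an injection `j`. -/
theorem result : ∃ (T : Type) (_ : Finite T) (L : Set (List T)),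
    IsChurchRosser L ∧ [] ∉ L ∧
    (∀ G : ProgrammedGrammar T, G.NonErasing → G.language ≠ L \ {[]}) ∧
    (∀ (T' : Type) (_ : Finite T') (j : T → T'), Function.Injective j →
      ∀ G : ProgrammedGrammar T', G.NonErasing → G.language ≠ (List.map j) '' (L \ {[]})) := by
  have h : Lang \ {[]} = Lang := Set.diff_singleton_eq_self nil_not_mem
  refine ⟨Sym, inferInstance, Lang, Pool.Agent.Helper92.CRLA.isChurchRosser_Lang, nil_not_mem,
    ?_, ?_⟩
  · intro G hG
    rw [h]
    exact not_generated G hG
  · intro T' hT' j hj G hG
    rw [h]
    exact not_generated' j hj G hG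

end Pool.Agent.Results.MP_d63846_lc.NotPac
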